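import Pool.Agent.Helper11.LE.Goals3
import Pool.Agent.Helper79.RD.GOO
import Pool.Agent.Helper51.SigLeo.Core

/-! LE: F_GOO, a good state gives a good extension. -/

namespace Pool.Agent.Helper95.LE

open NumberField Polynomial Module IsDedekindDomain TensorProduct Pool.Agent.Helper51.SigLeo
open Pool.Agent.Helper51.RP Pool.Agent.Helper42.RD Pool.Agent.Helper11.LE Pool.Agent.Helper79.RD

theorem eig_pow {k K H : Type} [NormedField k] [Field K] [Field H] [Algebra K H] (γ : H ≃ₐ[K] H)
    (ε' : k) (z : k ⊗[ℤ] Additive (𝓞 H)ˣ) (h : extEnd (unitsHom γ) z = ε' • z) (c : ℕ) :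
    extEnd (unitsHom (γ ^ c)) z = ε' ^ c • z := by
  induction c with
  | zero => rw [pow_zero, pow_zero, one_smul, unitsHom_one, extEnd_id]
  | succ c ih => rw [pow_succ', unitsHom_mul, extEnd_comp, ih, map_smul, h, smul_smul, pow_succ]

theorem f_goo (h1 : L_P1) (h2 : L_CYC) : F_GOO := by
  intro p hpf k _ _ _ _ hne L K K₁ _ _ _ _ _ ε hcyc T hcl R al a hst hgood j hj s hs hns N hNp hNg
    hgen
  have hp := hpf.out
  have hε := hcyc.prim
  have hN0 : 0 < finrank K N := by rw [hNp]; exact hp.pos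
  have hfN : FiniteDimensional K N := FiniteDimensional.of_finrank_pos hN0
  have hnN : Normal K N := inferInstance
  have hnΩ : Normal K (AlgebraicClosure K) := inferInstance
  have hgΩ : IsGalois K (AlgebraicClosure K) := inferInstance
  have hfKK₁ : FiniteDimensional K K₁ := FiniteDimensional.right ℚ K K₁
  let jK : K₁ →ₐ[K] AlgebraicClosure K := { j with commutes' := hj }
  set E : IntermediateField K (AlgebraicClosure K) := jK.fieldRange with hE
  have hjE : ∀ x : K₁, j x ∈ E := fun x => ⟨x, rfl⟩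
  have hEj : ∀ y ∈ E, ∃ x : K₁, j x = y := fun y hy => hy
  have hrankE : finrank K E = finrank K K₁ :=
    (LinearEquiv.finrank_eq (AlgEquiv.ofInjectiveField jK).toLinearEquiv).symm
  have hfE : FiniteDimensional K E := FiniteDimensional.of_finrank_pos (by
    rw [hrankE]; exact finrank_pos)
  set H₁ : IntermediateField K (AlgebraicClosure K) := E ⊔ N with hH₁
  have hjH : ∀ x : K₁, j x ∈ H₁ := fun x => (le_sup_left : E ≤ H₁) (hjE x)
  have hNH : N ≤ H₁ := le_sup_right
  have hsH : s ∈ H₁ := mem_of_fixed fun g hg =>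
    hgen g (fun y hy => hg y (hNH hy)) (fun x => hg _ (hjH x))
  have hfH₁ : FiniteDimensional K H₁ := inferInstance
  have hnfH₁ : NumberField H₁ := NumberField.of_module_finite K H₁
  have hnfN : NumberField N := NumberField.of_module_finite K N
  -- the automorphism
  have haK₁ : (a : K₁) ≠ 0 := RingOfIntegers.coe_ne_zero_iff.2 hst.ne
  have hr := no_root hp hε j haK₁ hs hns
  obtain ⟨gK, hgj, hgs⟩ : ∃ gK : AlgebraicClosure K ≃ₐ[K] AlgebraicClosure K,
      (∀ x, gK (j x) = j x) ∧ gK s = j ε * s := by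
    let _ : Algebra K₁ (AlgebraicClosure K) := j.toAlgebra
    have ht2 : IsScalarTower K K₁ (AlgebraicClosure K) :=
      IsScalarTower.of_algebraMap_eq fun c => (hj c).symm
    have hn2 : Normal K₁ (AlgebraicClosure K) :=
      Normal.tower_top_of_normal K K₁ (AlgebraicClosure K)
    obtain ⟨-, g, hg⟩ := exists_kummer hp hε (s := s) (a := (a : K₁)) hs hr
    exact ⟨g.restrictScalars K, fun x => g.commutes x, hg⟩
  have hgE : ∀ x ∈ E, gK x = x := by
    intro x hx
    obtain ⟨y, rfl⟩ := hEj x hx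
    exact hgj y
  have hgE' : ∀ x ∈ E, gK.symm x = x := by
    intro x hx
    rw [AlgEquiv.symm_apply_eq]
    exact (hgE x hx).symm
  have hst1 : ∀ x ∈ H₁, gK x ∈ H₁ := map_sup_mem gK fun x hx => by rw [hgE x hx]; exact hx
  have hst2 : ∀ x ∈ H₁, gK.symm x ∈ H₁ := map_sup_mem gK.symm fun x hx => by
    rw [hgE' x hx]; exact hx
  have hst3 : ∀ x ∈ N, gK x ∈ N := fun x hx => map_mem_normal gK hx
  have hst4 : ∀ x ∈ N, gK.symm x ∈ N := fun x hx => map_mem_normal gK.symm hx
  -- algebras
  let _ : Algebra K₁ H₁ := (j.codRestrict H₁ hjH).toAlgebra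
  have hcK₁ : ∀ x : K₁, ((algebraMap K₁ H₁ x : H₁) : AlgebraicClosure K) = j x := fun x => rfl
  have ht4 : IsScalarTower K K₁ H₁ := IsScalarTower.of_algebraMap_eq fun x =>
    Subtype.ext (hj x).symm
  let _ : Algebra N H₁ := (IntermediateField.inclusion hNH).toRingHom.toAlgebra
  have hfK₁H₁ : FiniteDimensional K₁ H₁ := FiniteDimensional.right K K₁ H₁
  -- degrees
  set s₁ : H₁ := ⟨s, hsH⟩ with hs₁
  have hs₁p : s₁ ^ p = algebraMap K₁ H₁ (a : K₁) := Subtype.ext hs
  have hdegH₁ : finrank K₁ H₁ = p := by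
    have e1 := Module.finrank_mul_finrank K K₁ H₁
    have e2 : finrank K H₁ ≤ finrank K E * finrank K N := IntermediateField.finrank_sup_le E N
    rw [hrankE, hNp, ← e1] at e2
    have e3 : finrank K₁ H₁ ≤ p := Nat.le_of_mul_le_mul_left e2 finrank_pos
    have e4 : minpoly K₁ s₁ = X ^ p - C (a : K₁) :=
      (minpoly.eq_of_irreducible_of_monic (X_pow_sub_C_irreducible_of_prime hp hr)
        (by rw [map_sub, map_pow, aeval_X, aeval_C, hs₁p, sub_self])
        (monic_X_pow_sub_C _ hp.ne_zero)).symm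
    have e5 : finrank K₁ (IntermediateField.adjoin K₁ {s₁}) = p := by
      rw [IntermediateField.adjoin.finrank (Algebra.IsIntegral.isIntegral s₁), e4,
        natDegree_X_pow_sub_C]
    have e6 : p ∣ finrank K₁ H₁ := by
      rw [← Module.finrank_mul_finrank K₁ (IntermediateField.adjoin K₁ {s₁}) H₁, e5]
      exact dvd_mul_right _ _
    exact le_antisymm e3 (Nat.le_of_dvd finrank_pos e6)
  set γ := res gK hst3 hst4 with hγ
  set γ₁K := res gK hst1 hst2 with hγ₁K
  let γ₁ : H₁ ≃ₐ[K₁] H₁ := AlgEquiv.ofRingEquiv (f := (γ₁K : H₁ ≃+* H₁)) fun x =>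
    Subtype.ext (hgj x)
  have hγp : γ ^ p = 1 := by
    ext y
    rw [hγ, res_pow]
    exact pow_fix (by rw [hNp]) hN0 hNg gK y y.2
  have hγ1 : γ ≠ 1 := by
    intro h
    have e1 : ∀ y ∈ N, gK y = y := by
      intro y hy
      have e2 := AlgEquiv.congr_fun h ⟨y, hy⟩
      exact congrArg Subtype.val e2
    have e3 := hgen gK e1 hgj
    rw [hgs] at e3
    have hs0 : s ≠ 0 := by
      intro h0
      rw [h0, zero_pow hp.ne_zero] at hs
      exact haK₁ (j.injective (by rw [← hs, map_zero]))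
    have e4 : j ε = 1 := by
      have : (j ε - 1) * s = 0 := by rw [sub_mul, e3, one_mul, sub_self]
      rcases mul_eq_zero.1 this with h' | h'
      · exact sub_eq_zero.1 h'
      · exact absurd h' hs0
    have e5 : ε = 1 := j.injective (by rw [e4, map_one])
    exact hε.ne_one hp.one_lt e5
  have hγo : orderOf γ = p := orderOf_eq_prime hγp hγ1
  have hHD : HD p K N K₁ H₁ γ γ₁ ε a s₁ :=
    { degH := hNp
      degH₁ := hdegH₁
      compat := fun x => Subtype.ext (hj x)
      cop := (h2 p K K₁ ε hcyc).2.1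
      gal := hcyc.gal
      prim := hε
      ne := hst.ne
      adm := hst.adm
      pow := hs₁p
      γs := Subtype.ext hgs
      ext := fun y => rfl
      γo := hγo }
  intro γ' ε' hε' z hz hz0
  by_contra hzne
  have hγ'1 : γ' ≠ 1 := by
    rintro rfl
    rw [unitsHom_one, extEnd_id] at hz
    have e1 : (1 - ε') • z = 0 := by rw [sub_smul, one_smul, ← hz, sub_self]
    rcases smul_eq_zero.1 e1 with h' | h'
    · exact hε'.ne_one hp.one_lt (sub_eq_zero.1 h').symm
    · exact hzne h'
  have hcard : Nat.card (N ≃ₐ[K] N) = p := by rw [IsGalois.card_aut_eq_finrank, hNp]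
  obtain ⟨c, hc⟩ : ∃ c : ℕ, γ' ^ c = γ := by
    have e1 : γ ∈ Submonoid.powers γ' := mem_powers_of_prime_card hcard hγ'1
    exact e1
  have hpc : c.Coprime p := by
    rw [Nat.coprime_comm, hp.coprime_iff_not_dvd]
    rintro ⟨d, rfl⟩
    apply hγ1
    rw [← hc, pow_mul, ← hcard, pow_card_eq_one', one_pow]
  exact hzne (h1 p k hne L K N K₁ H₁ γ γ₁ ε a s₁ hHD hcyc T hcl R al hst hgood (ε' ^ c)
    (hε'.pow_of_coprime c hpc) z (by rw [← hc]; exact eig_pow γ' ε' z hz c) hz0)

end Pool.Agent.Helper95.LE
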